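import Mathlib

/-!
# MP_cd2ba9_co, Question 1: the answer is no

The complement of the multicone graph `K_2 ▽ C_6` (`w = 2`, `m = 1`, `n = 6`) is the triangular
prism together with two isolated vertices.  It is cospectral with, but not isomorphic to, the graph
on `8` vertices consisting of two adjacent vertices with two common neighbours and two pendant
neighbours each.
-/

namespace Pool.Agent.Results.MP_cd2ba9_co.PrismMate

/-- The join of two vertex-disjoint graphs. -/
def join {V W : Type} (G : SimpleGraph V) (H : SimpleGraph W) : SimpleGraph (V ⊕ W) where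
  Adj
    | Sum.inl a, Sum.inl b => G.Adj a b
    | Sum.inr a, Sum.inr b => H.Adj a b
    | Sum.inl _, Sum.inr _ => True
    | Sum.inr _, Sum.inl _ => True
  symm := ⟨by
    rintro (a | a) (b | b) h
    · exact G.symm.symm _ _ h
    · trivial
    · trivial
    · exact H.symm.symm _ _ h⟩
  loopless := ⟨by
    rintro (a | a) h
    · exact G.loopless.irrefl a h
    · exact H.loopless.irrefl a h⟩

/-- `m C_n`: the disjoint union of `m` cycles with `n` vertices. -/
def cycles (m n : ℕ) : SimpleGraph (Fin m × Fin n) where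
  Adj x y := x.1 = y.1 ∧ (SimpleGraph.cycleGraph n).Adj x.2 y.2
  symm := ⟨fun _ _ h => ⟨h.1.symm, (SimpleGraph.cycleGraph n).symm.symm _ _ h.2⟩⟩
  loopless := ⟨fun _ h => (SimpleGraph.cycleGraph n).loopless.irrefl _ h.2⟩

/-- The multicone graph `K_w ▽ m C_n`. -/
def multicone (w m n : ℕ) : SimpleGraph (Fin w ⊕ (Fin m × Fin n)) :=
  join (⊤ : SimpleGraph (Fin w)) (cycles m n)

open Classical in
/-- The adjacency spectrum: the multiset of the eigenvalues of the adjacency matrix. -/
noncomputable def spectrum {V : Type} [Fintype V] (G : SimpleGraph V) : Multiset ℝ :=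
  (G.adjMatrix ℝ).charpoly.roots

/-- `G` is determined by its adjacency spectrum. -/
def DS {V : Type} [Fintype V] (G : SimpleGraph V) : Prop :=
  ∀ (W : Type) [Fintype W] (H : SimpleGraph W), spectrum H = spectrum G → Nonempty (H ≃g G)

/-- The mate. -/
def mate : SimpleGraph (Fin 8) :=
  SimpleGraph.fromRel fun a b => (a, b) ∈ [((2 : Fin 8), (6 : Fin 8)), (3, 6), (4, 6), (5, 6),
    (0, 7), (1, 7), (4, 7), (5, 7), (6, 7)]

instance : DecidableRel mate.Adj := fun a b => by
  unfold mate; infer_instance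

instance (w m n : ℕ) : DecidableRel (multicone w m n).Adj := fun x y => by
  rcases x with a | a <;> rcases y with b | b
  · exact inferInstanceAs (Decidable ((⊤ : SimpleGraph (Fin w)).Adj a b))
  · exact isTrue trivial
  · exact isTrue trivial
  · exact inferInstanceAs (Decidable (a.1 = b.1 ∧ (SimpleGraph.cycleGraph n).Adj a.2 b.2))

/-- identification of the vertices with `0, …, 7` -/
def e8 : Fin 8 → Fin 2 ⊕ (Fin 1 × Fin 6) :=
  ![Sum.inr (0, 0), Sum.inr (0, 1), Sum.inr (0, 2), Sum.inr (0, 3), Sum.inr (0, 4),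
    Sum.inr (0, 5), Sum.inl 0, Sum.inl 1]

lemma e8_bij : Function.Bijective e8 := by
  rw [Fintype.bijective_iff_injective_and_card]
  refine ⟨by unfold Function.Injective; decide, by decide⟩

/-- adjacency matrix of the prism with two isolated vertices -/
def AA : Matrix (Fin 8) (Fin 8) ℤ := Matrix.of fun i j =>
  if (multicone 2 1 6)ᶜ.Adj (e8 i) (e8 j) then 1 else 0

/-- adjacency matrix of the mate -/
def BB : Matrix (Fin 8) (Fin 8) ℤ := Matrix.of fun i j => if mate.Adj i j then 1 else 0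

/-- intertwiner -/
def PP : Matrix (Fin 8) (Fin 8) ℤ :=
  !![-1, 0, 0, -1, 0, 1, 1, 1; 0, 0, -1, 0, 0, 0, -1, -1; 0, -1, 1, -1, -1, 1, -1, 0;
    0, 1, -1, -1, 1, -1, 1, 0; 0, 0, -1, -1, 0, 0, -1, 0; 1, -1, -1, 0, -1, 0, 1, 0;
    -1, -1, 0, 0, 0, -1, 0, 0; -1, 0, 0, 0, -1, -1, 0, 0]

/-- ten times its inverse -/
def QQ : Matrix (Fin 8) (Fin 8) ℤ :=
  !![-4, -4, 1, 1, 2, 2, -2, -2; 0, 0, -1, 1, 0, -2, -6, 4; -2, -2, 4, 2, -4, -2, 0, 0;
    0, 0, -5, -5, 0, 0, 0, 0; 0, 0, -1, 1, 0, -2, 4, -6; 4, 4, 0, -2, -2, 0, -2, -2;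
    2, 2, 1, 3, -6, 2, 0, 0; 0, -10, -5, -5, 10, 0, 0, 0]

lemma PA : PP * AA = BB * PP := by decide

lemma PQ : PP * QQ = Matrix.of fun i j => if i = j then 10 else 0 := by decide

lemma charpoly_eq : (AA.map (Int.castRingHom ℝ)).charpoly =
    (BB.map (Int.castRingHom ℝ)).charpoly := by
  set A := AA.map (Int.castRingHom ℝ)
  set B := BB.map (Int.castRingHom ℝ)
  set P := PP.map (Int.castRingHom ℝ)
  set Q := QQ.map (Int.castRingHom ℝ)
  have h1 : P * A = B * P := by
    have := congrArg (fun M => M.map (Int.castRingHom ℝ)) PA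
    simpa only [Matrix.map_mul] using this
  have h2 : P * Q = (10 : ℝ) • (1 : Matrix (Fin 8) (Fin 8) ℝ) := by
    have := congrArg (fun M => M.map (Int.castRingHom ℝ)) PQ
    simp only [Matrix.map_mul] at this
    refine this.trans ?_
    ext i j
    rw [Matrix.map_apply, Matrix.of_apply, Matrix.smul_apply, Matrix.one_apply]
    split_ifs <;> simp
  have h3 : P * ((1 / 10 : ℝ) • Q) = 1 := by
    rw [Matrix.mul_smul, h2, smul_smul]
    norm_num
  have h4 : ((1 / 10 : ℝ) • Q) * P = 1 := mul_eq_one_comm.1 h3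
  have h5 : B = P * (A * ((1 / 10 : ℝ) • Q)) := by
    rw [← Matrix.mul_assoc, h1, Matrix.mul_assoc, h3, Matrix.mul_one]
  rw [h5, Matrix.charpoly_mul_comm, Matrix.mul_assoc, h4, Matrix.mul_one]

lemma spectrum_inst {V : Type} [Fintype V] (G : SimpleGraph V) [DecidableEq V]
    [DecidableRel G.Adj] : spectrum G = (G.adjMatrix ℝ).charpoly.roots := by
  have key : ∀ (d1 d2 : DecidableEq V) (r1 r2 : DecidableRel G.Adj),
      (@Matrix.charpoly ℝ _ V d1 _ (@SimpleGraph.adjMatrix ℝ V G r1 _ _)).roots =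
        (@Matrix.charpoly ℝ _ V d2 _ (@SimpleGraph.adjMatrix ℝ V G r2 _ _)).roots := by
    intro d1 d2 r1 r2
    obtain rfl : d1 = d2 := Subsingleton.elim _ _
    obtain rfl : r1 = r2 := Subsingleton.elim _ _
    rfl
  exact key _ _ _ _

lemma spec_eq : spectrum mate = spectrum (multicone 2 1 6)ᶜ := by
  rw [spectrum_inst, spectrum_inst]
  have h1 : mate.adjMatrix ℝ = BB.map (Int.castRingHom ℝ) := by
    ext i j
    simp only [SimpleGraph.adjMatrix_apply, Matrix.map_apply, BB, Matrix.of_apply]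
    by_cases h : mate.Adj i j
    · rw [if_pos h, if_pos h]; simp
    · rw [if_neg h, if_neg h]; simp
  let e : Fin 8 ≃ Fin 2 ⊕ (Fin 1 × Fin 6) := Equiv.ofBijective e8 e8_bij
  have h2 : Matrix.reindex e.symm e.symm ((multicone 2 1 6)ᶜ.adjMatrix ℝ) =
      AA.map (Int.castRingHom ℝ) := by
    ext i j
    simp only [Matrix.reindex_apply, Matrix.submatrix_apply, Equiv.symm_symm,
      SimpleGraph.adjMatrix_apply, Matrix.map_apply, AA, Matrix.of_apply]
    have he : ∀ k, e k = e8 k := fun _ => rfl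
    rw [he, he]
    by_cases h : (multicone 2 1 6)ᶜ.Adj (e8 i) (e8 j)
    · rw [if_pos h, if_pos h]; simp
    · rw [if_neg h, if_neg h]; simp
  have h3 : ((multicone 2 1 6)ᶜ.adjMatrix ℝ).charpoly = (AA.map (Int.castRingHom ℝ)).charpoly := by
    rw [← h2, Matrix.charpoly_reindex]
  have h4 : (mate.adjMatrix ℝ).charpoly = (BB.map (Int.castRingHom ℝ)).charpoly := by rw [h1]
  exact congrArg Polynomial.roots (h4.trans (charpoly_eq.symm.trans h3.symm))

lemma not_iso : ¬ Nonempty (mate ≃g (multicone 2 1 6)ᶜ) := by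
  rintro ⟨φ⟩
  have h1 : mate.degree 6 = 5 := by decide
  have h2 : ∀ v, (multicone 2 1 6)ᶜ.degree v ≤ 3 := by decide
  have h3 := φ.degree_eq 6
  have h4 := h2 (φ 6)
  omega

/-- **Theorem.** It is not true that all complements of the multicone graphs `K_w ▽ m C_n` are
determined by their adjacency spectrum: the complement of `K_2 ▽ C_6` is not. -/
theorem result : ¬ DS (multicone 2 1 6)ᶜ ∧
    ¬ ∀ w m n : ℕ, 1 ≤ w → 1 ≤ m → 3 ≤ n → DS (multicone w m n)ᶜ := by
  have h : ¬ DS (multicone 2 1 6)ᶜ := fun h => not_iso (h (Fin 8) mate spec_eq)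
  exact ⟨h, fun h' => h (h' 2 1 6 (by norm_num) (by norm_num) (by norm_num))⟩

end Pool.Agent.Results.MP_cd2ba9_co.PrismMate
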